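import Mathlib.SetTheory.Cardinal.Regular

/-!
The P-ideal dichotomy and the filter games on a cardinal `κ`.
-/

set_option autoImplicit false

universe u

open Cardinal Set

namespace Pool.Agent.MP_76b292_lc.GM

/-- `J` is an ideal of countable subsets of `S` that contains all finite sets and is a P-ideal. -/
def PIdeal {S : Type u} (J : Set (Set S)) : Prop :=
  (∀ A ∈ J, A.Countable) ∧ (∀ A : Set S, A.Finite → A ∈ J) ∧ (∀ A ∈ J, ∀ B ⊆ A, B ∈ J) ∧
    (∀ A ∈ J, ∀ B ∈ J, A ∪ B ∈ J) ∧
    ∀ A : ℕ → Set S, (∀ n, A n ∈ J) → ∃ B ∈ J, ∀ n, (A n \ B).Finite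

/-- The P-ideal dichotomy. -/
def PID : Prop :=
  ∀ (S : Type u) (J : Set (Set S)), PIdeal J →
    (∃ A : Set S, ¬ A.Countable ∧ ∀ B ⊆ A, B.Countable → B ∈ J) ∨
      ∃ T : ℕ → Set S, (⋃ n, T n) = Set.univ ∧ ∀ n, ∀ A ∈ J, (T n ∩ A).Finite

/-- Player I has no winning strategy in the filter game of length `γ` on `κ`. In round `i < γ`
player I, who sees the earlier moves of player II, plays a family `A i` of at most `κ` subsets of
`κ`; player II answers with the subfamily `U i` of the sets she calls large, the complements of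
the other members of `A i` being called large as well. Player II wins if fewer than `κ` sets
called large in the whole play always have an intersection of size `κ`. -/
def NoWinI (κ : Cardinal.{u}) (γ : Ordinal.{u}) : Prop :=
  ∀ σ : (i : γ.ToType) → (Iio i → Set (Set κ.ord.ToType)) → Set (Set κ.ord.ToType),
    (∀ i h, #(σ i h) ≤ κ) →
    ∃ A U : γ.ToType → Set (Set κ.ord.ToType),
      (∀ i, A i = σ i (fun j => U j.1) ∧ U i ⊆ A i) ∧
      ∀ B ⊆ ⋃ i, U i ∪ compl '' (A i \ U i), #B < κ → #(⋂₀ B) = κ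

end Pool.Agent.MP_76b292_lc.GM
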