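import Pool.Agent.MP_76b292_lc.gm.Rep

/-!
Closing a family of `κ` sets under the answers of a strategy of player I.
-/

set_option autoImplicit false

universe u

open Cardinal Set Filter

namespace Pool.Agent.MP_76b292_lc.GM

variable {I J : Type u} [LinearOrder J] [WellFoundedLT J]

/-- the moves of player II who follows the oracle `W` -/
noncomputable def play (σ : (i : J) → (Iio i → Set (Set I)) → Set (Set I)) (W : Set (Set I)) :
    J → Set (Set I) :=
  WellFounded.fix wellFounded_lt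
    (fun i (r : ∀ j, j < i → Set (Set I)) => σ i (fun j => r j.1 j.2) ∩ W)

/-- the moves of player I against the oracle `W` -/
noncomputable def move (σ : (i : J) → (Iio i → Set (Set I)) → Set (Set I)) (W : Set (Set I))
    (i : J) : Set (Set I) := σ i (fun j => play σ W j.1)

variable {σ : (i : J) → (Iio i → Set (Set I)) → Set (Set I)}

lemma play_eq (W : Set (Set I)) (i : J) : play σ W i = move σ W i ∩ W := by
  rw [play, WellFounded.fix_eq]
  rfl

lemma move_congr {W W' : Set (Set I)} (i : J)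
    (h : ∀ j < i, ∀ X ∈ move σ W j, (X ∈ W' ↔ X ∈ W)) : move σ W' i = move σ W i := by
  induction i using WellFoundedLT.induction with
  | ind i ih =>
    have : (fun j : Iio i => play σ W' j.1) = fun j : Iio i => play σ W j.1 := by
      funext j
      rw [play_eq, play_eq, ih j.1 j.2 (fun k hk => h k (hk.trans j.2))]
      ext X
      exact and_congr_right fun l => h j.1 j.2 X l
    rw [move, move, this]

lemma card_iUnion_le {S T : Type u} (hα : ℵ₀ ≤ #I) (hT : #T ≤ #I) {f : T → Set S}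
    (hf : ∀ t, #(f t) ≤ #I) : #(⋃ t, f t) ≤ #I :=
  (mk_iUnion_le _).trans (mul_le_of_le hα hT (ciSup_le' hf))

variable [LinearOrder I]

lemma Inac.card_seq (h : Inac I) {T : Type u} (hT : #T ≤ #I) : #(ℕ → T) ≤ #I := by
  obtain ⟨j⟩ := (Cardinal.le_def _ _).1 hT
  have h1 : (Set.univ : Set (ℕ → T)) = ⋃ b : I, {s | ∀ n, j (s n) < b} := by
    refine (eq_univ_of_forall fun s => ?_).symm
    obtain ⟨b, hb⟩ := h.bdd_nat (fun n => j (s n))
    exact mem_iUnion.2 ⟨b, hb⟩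
  rw [← mk_univ, h1]
  refine card_iUnion_le h.unc.le le_rfl fun b => ?_
  have h2 : #{s : ℕ → T | ∀ n, j (s n) < b} ≤ #(ℕ → Iio b) :=
    mk_le_of_injective (f := fun s n => ⟨j (s.1 n), s.2 n⟩) fun s t e =>
      Subtype.ext (funext fun n => j.injective (congrArg Subtype.val (congrFun e n)))
  refine h2.trans ?_
  have h3 : #(ℕ → Iio b) = #(Iio b) ^ ℵ₀ := by simp
  have h4 : #(Iio b) * ℵ₀ < #I := mul_lt_of_lt h.unc.le (h.iio b) h.unc
  rw [h3]
  refine le_trans (power_le_power_right (cantor _).le) ?_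
  rw [← power_mul]
  exact (h.sl.isStrongPrelimit h4).le

theorem game (hP : PID.{u}) (h : Inac I) (hJ : #J ≤ #I) {U : Ultrafilter I} (hu : Uniform U)
    {φ : I → ℕ} (hφ : Fac U φ) (hσ : ∀ i r, #(σ i r) ≤ #I) :
    ∃ W : Set (Set I), ∀ B ⊆ ⋃ i, move σ W i, #B < #I → Unb {y | ∀ X ∈ B, (y ∈ X ↔ X ∈ W)} := by
  classical
  choose! G hG using exists_rep hP h hu hφ
  let y : Set (Set I) → Set (Set I) := fun A =>
    A ∪ ⋃ p : ULift.{u} ℕ × J, move σ (G A p.1.down) p.2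
  have hy : ∀ A : Set (Set I), #A ≤ #I → #(y A) ≤ #I := fun A hA =>
    (mk_union_le _ _).trans (add_le_of_le h.unc.le hA (card_iUnion_le h.unc.le
      (by simpa using mul_le_of_le h.unc.le h.unc.le hJ) fun p => hσ _ _))
  have h0 : ∀ (A : Set (Set I)) (n : ℕ), ∃ o : Option J, (o = none → ∀ i, move σ (G A n) i ⊆ A) ∧
      ∀ i, o = some i → ¬ move σ (G A n) i ⊆ A ∧ ∀ j < i, move σ (G A n) j ⊆ A := by
    intro A n
    by_cases k : ∀ i, move σ (G A n) i ⊆ A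
    · exact ⟨none, fun _ => k, fun i e => by cases e⟩
    · obtain ⟨i, k1, k2⟩ := wellFounded_lt.has_min {i | ¬ move σ (G A n) i ⊆ A} (not_forall.1 k)
      refine ⟨some i, fun e => (by cases e), fun j e => ?_⟩
      cases e
      exact ⟨k1, fun j hj => not_not.1 fun l => k2 j l hj⟩
  choose s hs1 hs2 using h0
  have h1 : ∀ t : ℕ → Option J, ∃ A : Set (Set I), #A ≤ #I ∧
      ((∃ A' : Set (Set I), #A' ≤ #I ∧ s A' = t) → s A = t) := by
    intro t
    by_cases k : ∃ A' : Set (Set I), #A' ≤ #I ∧ s A' = t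
    · obtain ⟨A, k1, k2⟩ := k
      exact ⟨A, k1, fun _ => k2⟩
    · exact ⟨∅, by simp, fun l => (k l).elim⟩
  choose C hC1 hC2 using h1
  let F : Set (Set I) := ⋃ t, y (C t)
  have hO : #(Option J) ≤ #I := by
    rw [mk_option]
    exact add_le_of_le h.unc.le hJ (one_le_aleph0.trans h.unc.le)
  have hF : #F ≤ #I := card_iUnion_le h.unc.le (h.card_seq hO) fun t => hy _ (hC1 t)
  have e : s (C (s F)) = s F := hC2 _ ⟨F, hF, rfl⟩
  have hyF : y (C (s F)) ⊆ F := subset_iUnion (fun t => y (C t)) (s F)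
  have hCF : C (s F) ⊆ F := subset_union_left.trans hyF
  obtain ⟨x, k1, k2⟩ := (((hG _ (hC1 (s F))).cohere h.unc (hG _ hF) hCF).and
    ((hG _ hF).complete h hu)).exists
  refine ⟨G F (φ x), fun B hB hc => k2 B (hB.trans (iUnion_subset (hs1 F _ ?_))) hc⟩
  cases ho : s F (φ x) with
  | none => rfl
  | some i =>
    exfalso
    obtain ⟨-, l2⟩ := hs2 (C (s F)) (φ x) i (by rw [e, ho])
    apply (hs2 F (φ x) i ho).1
    rw [move_congr (W := G (C (s F)) (φ x)) i fun j hj X hX => (k1 X (l2 j hj hX)).symm]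
    refine subset_trans ?_ (subset_union_right.trans hyF)
    exact subset_iUnion (fun p : ULift.{u} ℕ × J => move σ (G (C (s F)) p.1.down) p.2) (⟨φ x⟩, i)

theorem game' (hP : PID.{u}) (h : Inac I) (hJ : #J ≤ #I) {U : Ultrafilter I} (hu : Uniform U)
    {φ : I → ℕ} (hφ : Fac U φ) (hσ : ∀ i r, #(σ i r) ≤ #I) :
    ∃ A V : J → Set (Set I), (∀ i, A i = σ i (fun j => V j.1) ∧ V i ⊆ A i) ∧
      ∀ B ⊆ ⋃ i, V i ∪ compl '' (A i \ V i), #B < #I → #(⋂₀ B) = #I := by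
  obtain ⟨W, hW⟩ := game hP h hJ hu hφ hσ
  refine ⟨move σ W, play σ W, fun i => ⟨rfl, by rw [play_eq]; exact inter_subset_left⟩,
    fun B hB hc => ?_⟩
  have h1 : #((B ∪ compl '' B) ∩ ⋃ i, move σ W i : Set (Set I)) < #I :=
    (mk_le_mk_of_subset inter_subset_left).trans_lt ((mk_union_le _ _).trans_lt
      (add_lt_of_lt h.unc.le hc (mk_image_le.trans_lt hc)))
  refine h.card_unb fun b => ?_
  obtain ⟨y, hy, hby⟩ := hW _ inter_subset_right h1 b
  refine ⟨y, fun Y hY => ?_, hby⟩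
  obtain ⟨i, hi | ⟨X, hX, rfl⟩⟩ := mem_iUnion.1 (hB hY)
  · rw [play_eq] at hi
    exact (hy Y ⟨Or.inl hY, mem_iUnion.2 ⟨i, hi.1⟩⟩).2 hi.2
  · rw [play_eq] at hX
    exact fun k => hX.2 ⟨hX.1, (hy X ⟨Or.inr ⟨_, hY, compl_compl X⟩, mem_iUnion.2 ⟨i, hX.1⟩⟩).1 k⟩

omit [LinearOrder I] in
lemma transport {κ : Cardinal.{u}} (hI : #I = κ) (h : CarriesIndec κ) :
    ∃ U : Ultrafilter I, Uniform U ∧ ∀ β : Type u, ℵ₀ < #β → #β < #I → ¬ Decomposable U β := by
  obtain ⟨α, U, hα, hu, hU⟩ := h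
  obtain ⟨e⟩ := Cardinal.eq.1 (hα.trans hI.symm)
  refine ⟨U.map e, fun A hA => ?_, fun β h1 h2 ⟨f, hf⟩ => hU β h1 (hI ▸ h2) ⟨f ∘ e, hf⟩⟩
  rw [← mk_preimage_equiv e A, hu _ hA, hα, hI]

lemma inac_toType {κ : Cardinal.{u}} (h1 : ℵ₀ < κ) (h2 : κ.IsRegular) (h3 : κ.IsStrongLimit) :
    Inac κ.ord.ToType := by
  refine ⟨?_, ?_, ?_, fun i => mk_Iio_lt i (by simp)⟩ <;> rw [mk_ord_toType]
  exacts [h1, h2, h3]

theorem noWin (hP : PID.{u}) {κ : Cardinal.{u}} (h1 : ℵ₀ < κ) (h2 : κ.IsRegular)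
    (h3 : κ.IsStrongLimit) (hc : CarriesIndec κ) {γ : Ordinal.{u}} (hγ : γ.card ≤ κ) :
    NoWinI κ γ := by
  intro σ hσ
  have hI := inac_toType h1 h2 h3
  obtain ⟨U, hu, hU⟩ := transport (mk_ord_toType κ) hc
  obtain ⟨φ, hφ⟩ := exists_fac U hI.sl hI.unc hU
  have := game' (σ := σ) hP hI (by simpa using hγ) hu hφ
    (by simpa only [mk_ord_toType] using hσ)
  simpa only [mk_ord_toType] using this

/-- a singular cardinal of uncountable cofinality carries no uniform indecomposable ultrafilter -/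
lemma regular_of_carries {κ : Cardinal.{u}} (h1 : ℵ₀ < κ.ord.cof) (hc : CarriesIndec κ) :
    κ.IsRegular := by
  have h2 : ℵ₀ < κ := h1.trans_le (Ordinal.cof_ord_le κ)
  refine ⟨h2.le, not_lt.1 fun h3 => ?_⟩
  obtain ⟨U, hu, hU⟩ := transport (mk_ord_toType κ) hc
  obtain ⟨s, hs1, hs2⟩ := Order.exists_cof_eq κ.ord.ToType
  have hs3 := hs2.trans (Ordinal.cof_toType _)
  choose f hf1 hf2 using hs1
  refine hU s (by rwa [hs3]) (by rwa [hs3, mk_ord_toType])
    ⟨fun x => ⟨f x, hf1 x⟩, fun A hA hAU => ?_⟩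
  have h4 : ¬ IsCofinal (Subtype.val '' A) := fun k =>
    absurd (Order.cof_le k) (not_le.2 (hs2 ▸ mk_image_le.trans_lt hA))
  obtain ⟨b, hb⟩ := not_isCofinal_iff.1 h4
  refine (mk_Iio_lt b (by simp)).ne (hu _ (Filter.mem_of_superset hAU fun x hx => ?_))
  exact (hf2 x).trans_lt (hb _ ⟨_, hx, rfl⟩)

theorem noWin' (hP : PID.{u}) {κ : Cardinal.{u}} (h1 : ℵ₀ < κ.ord.cof)
    (h3 : κ.IsStrongLimit) (hc : CarriesIndec κ) {γ : Ordinal.{u}} (hγ : γ.card ≤ κ) :
    NoWinI κ γ :=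
  noWin hP (h1.trans_le (Ordinal.cof_ord_le κ)) (regular_of_carries h1 hc) h3 hc hγ

end Pool.Agent.MP_76b292_lc.GM
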