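import Pool.Agent.MP_76b292_lc.gm.Sub
import Pool.Agent.MP_76b292_lc.StarB

/-!
Under PID the trace of an indecomposable ultrafilter on a family of `κ` sets is represented by one
sequence of filters along the finest partition.
-/

set_option autoImplicit false

universe u

open Cardinal Set Filter

namespace Pool.Agent.MP_76b292_lc.GM

variable {I : Type u}

/-- every map into a small type factors through `φ` on a large set -/
def Fac (U : Ultrafilter I) (φ : I → ℕ) : Prop :=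
  ∀ (β : Type u), #β < #I → ∀ f : I → β, ∃ g : ℕ → β, ∀ᶠ x in U, f x = g (φ x)

lemma exists_fac (U : Ultrafilter I) (hsl : (#I).IsStrongLimit) (hα : ℵ₀ < #I)
    (hU : ∀ β : Type u, ℵ₀ < #β → #β < #I → ¬ Decomposable U β) : ∃ φ, Fac U φ := by
  classical
  obtain ⟨φ, g, hg⟩ := exists_finest U hsl hα hU
  refine ⟨φ, fun β hβ f => ?_⟩
  obtain ⟨R, hR1, hR2⟩ := countable_range_of_indec U hU hβ f
  have hne : Nonempty I := mk_ne_zero_iff.1 (lt_of_le_of_lt bot_le hα).ne'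
  obtain ⟨x₀⟩ := hne
  let a : Set (Set I) := (fun r => f ⁻¹' {r}) '' R
  have ha : Sm a := sm_of_countable (hR1.image _)
  have h1 : ∀ n, ∃ y : I, (∃ z, f z ∈ R ∧ {A ∈ a | z ∈ A} = g a n) →
      f y ∈ R ∧ {A ∈ a | y ∈ A} = g a n := by
    intro n
    by_cases k : ∃ z, f z ∈ R ∧ {A ∈ a | z ∈ A} = g a n
    · obtain ⟨z, hz⟩ := k
      exact ⟨z, fun _ => hz⟩
    · exact ⟨x₀, fun l => (k l).elim⟩
  choose y hy using h1
  refine ⟨fun n => f (y n), ?_⟩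
  filter_upwards [hR2, hg a ha] with x k1 k2
  obtain ⟨-, k4⟩ := hy (φ x) ⟨x, k1, k2⟩
  have k5 : f ⁻¹' {f x} ∈ {A ∈ a | x ∈ A} := ⟨⟨f x, k1, rfl⟩, rfl⟩
  rw [k2, ← k4] at k5
  exact k5.2.symm

variable [LinearOrder I]

lemma Inac.tail (h : Inac I) {U : Ultrafilter I} (hu : Uniform U) (b : I) : ∀ᶠ x in U, b < x := by
  have h1 : Iic b ∉ U := fun k => (h.iic b).ne (hu _ k)
  filter_upwards [Ultrafilter.compl_mem_iff_notMem.2 h1] with x hx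
  exact not_le.1 hx

lemma Inac.unb_univ (h : Inac I) : Unb (Set.univ : Set I) := fun b => by
  obtain ⟨c, hc⟩ := h.bdd_nat (fun _ => b)
  exact ⟨c, trivial, hc 0⟩

lemma rep_enum (hP : PID.{u}) (h : Inac I) {U : Ultrafilter I} (hu : Uniform U) {φ : I → ℕ}
    (hφ : Fac U φ) (A : I → Set I) :
    ∃ G : ℕ → Set I, ∀ b, ∀ᶠ x in U, ∀ i < b, (x ∈ A i ↔ i ∈ G (φ x)) := by
  classical
  have h1 : ∀ b : I, ∃ g : ℕ → Set I, ∀ᶠ x in U, ∀ i < b, (x ∈ A i ↔ i ∈ g (φ x)) := by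
    intro b
    obtain ⟨g, hg⟩ := hφ (Set (Iio b)) (by
      rw [mk_set]
      exact h.sl.isStrongPrelimit (h.iio b)) (fun x => {i | x ∈ A i.1})
    refine ⟨fun n => Subtype.val '' g n, ?_⟩
    filter_upwards [hg] with x hx i hi
    rw [← hx]
    exact ⟨fun k => ⟨⟨i, hi⟩, k, rfl⟩, fun ⟨j, k, e⟩ => e ▸ k⟩
  choose g hg using h1
  let E : I → I → Set ℕ := fun a b => {n | ∀ i < a, (i ∈ g a n ↔ i ∈ g b n)}
  have hE : ∀ a b, a ≤ b → ∀ᶠ x in U, φ x ∈ E a b := by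
    intro a b hab
    filter_upwards [hg a, hg b] with x k1 k2 i hi
    rw [← k1 i hi, ← k2 i (hi.trans_le hab)]
  have hc : #(ULift.{u} (Set ℕ)) < #I := by
    simpa using h.cont_lt
  have h2 : ∀ a : I, ∃ e : ℕ → ULift.{u} (Set ℕ), ∀ᶠ x in U, ULift.up (E a x) = e (φ x) :=
    fun a => hφ _ hc _
  choose e he using h2
  have hc2 : #(ℕ → ULift.{u} (Set ℕ)) < #I := by
    simpa using h.cont_lt
  obtain ⟨e₀, he₀⟩ := h.pigeon hc2 h.unb_univ e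
  let B : ℕ → Set ℕ := fun m => {k | ∀ n ≤ m, (∀ᶠ x in U, φ x ∈ (e₀ n).down) → k ∈ (e₀ n).down}
  have hB : ∀ m, ∀ᶠ x in U, φ x ∈ B m := by
    intro m
    have : ∀ᶠ x in U, ∀ n ∈ Iic m, (∀ᶠ x in U, φ x ∈ (e₀ n).down) → φ x ∈ (e₀ n).down := by
      refine (eventually_all_finite (finite_le_nat m)).2 fun n _ => ?_
      by_cases k : ∀ᶠ x in U, φ x ∈ (e₀ n).down
      · exact k.mono fun x hx _ => hx
      · exact Eventually.of_forall fun x l => (k l).elim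
    exact this
  obtain ⟨m, S, -, hS1, hS2⟩ := subadd hP h he₀ (fun m a b => B m ⊆ E a b)
    (fun hm k n hn => k fun j hj => hn j (hj.trans hm))
    (by
      rintro a ⟨-, ha⟩ b ⟨-, hb⟩ hab
      obtain ⟨x, k1, k2, k3⟩ := ((he a).and ((he b).and (h.tail hu b))).exists
      rw [ha] at k1
      rw [hb] at k2
      have l1 : (e₀ (φ x)).down = E a x := by rw [← k1]
      have l2 : (e₀ (φ x)).down = E b x := by rw [← k2]
      refine ⟨φ x, fun n hn i hi => ?_⟩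
      have l3 := hn (φ x) le_rfl (by rw [l2]; exact hE _ _ k3.le)
      have l4 : n ∈ E a x := l1 ▸ l3
      have l5 : n ∈ E b x := l2 ▸ l3
      rw [l4 i hi, l5 i (hi.trans hab)])
    (fun hab _ k1 k2 n hn i hi => (k1 hn i hi).trans (k2 hn i (hi.trans hab)))
    (fun hab _ k1 k2 n hn i hi => (k1 hn i hi).trans (k2 hn i (hi.trans hab)).symm)
  refine ⟨fun n => {i | ∃ a ∈ S, i < a ∧ i ∈ g a n}, fun b => ?_⟩
  obtain ⟨a, ha, hba⟩ := hS1 b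
  filter_upwards [hg a, hB m] with x k1 k2 i hi
  have hia := hi.trans hba
  rw [k1 i hia]
  refine ⟨fun k => ⟨a, ha, hia, k⟩, fun ⟨a', ha', hia', k⟩ => ?_⟩
  rcases lt_trichotomy a a' with l | l | l
  · exact (hS2 a ha a' ha' l k2 i hia).2 k
  · exact l ▸ k
  · exact (hS2 a' ha' a ha l k2 i hia').1 k

/-- `G` represents the trace of `U` on the family `A` -/
def Rep (U : Ultrafilter I) (φ : I → ℕ) (A : Set (Set I)) (G : ℕ → Set (Set I)) : Prop :=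
  ∀ B ⊆ A, #B < #I → ∀ᶠ x in U, ∀ X ∈ B, (x ∈ X ↔ X ∈ G (φ x))

lemma exists_rep (hP : PID.{u}) (h : Inac I) {U : Ultrafilter I} (hu : Uniform U) {φ : I → ℕ}
    (hφ : Fac U φ) (A : Set (Set I)) (hA : #A ≤ #I) : ∃ G, Rep U φ A G := by
  obtain ⟨j⟩ := (Cardinal.le_def _ _).1 hA
  obtain ⟨G, hG⟩ := rep_enum hP h hu hφ (Function.extend j Subtype.val (fun _ => ∅))
  refine ⟨fun n => {X | ∃ k : X ∈ A, j ⟨X, k⟩ ∈ G n}, fun B hB hc => ?_⟩
  obtain ⟨b, hb⟩ := h.bdd hc (fun X => j ⟨X.1, hB X.2⟩)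
  filter_upwards [hG b] with x hx X hX
  have k := hx _ (hb ⟨X, hX⟩)
  rw [j.injective.extend_apply] at k
  exact k.trans ⟨fun l => ⟨hB hX, l⟩, fun ⟨_, l⟩ => l⟩

omit [LinearOrder I] in
lemma Rep.cohere {U : Ultrafilter I} {φ : I → ℕ} {A A' : Set (Set I)} {G G' : ℕ → Set (Set I)}
    (hα : ℵ₀ < #I) (h : Rep U φ A G) (h' : Rep U φ A' G') (hA : A ⊆ A') :
    ∀ᶠ x in U, ∀ X ∈ A, (X ∈ G (φ x) ↔ X ∈ G' (φ x)) := by
  let N : Set ℕ := {n | ∃ X ∈ A, ¬ (X ∈ G n ↔ X ∈ G' n)}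
  have h1 : ∀ n : N, ∃ X ∈ A, ¬ (X ∈ G n ↔ X ∈ G' n) := fun n => n.2
  choose X hX1 hX2 using h1
  have h2 : range X ⊆ A := by
    rintro _ ⟨n, rfl⟩
    exact hX1 n
  have h3 : #(range X) < #I := (le_aleph0_iff_set_countable.2 (countable_range X)).trans_lt hα
  filter_upwards [h _ h2 h3, h' _ (h2.trans hA) h3] with x k1 k2 Y hY
  by_contra k
  have hn : φ x ∈ N := ⟨Y, hY, k⟩
  exact hX2 ⟨_, hn⟩ ((k1 _ ⟨⟨_, hn⟩, rfl⟩).symm.trans (k2 _ ⟨⟨_, hn⟩, rfl⟩))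

lemma Rep.complete {U : Ultrafilter I} {φ : I → ℕ} {A : Set (Set I)} {G : ℕ → Set (Set I)}
    (hI : Inac I) (hu : Uniform U) (h : Rep U φ A G) :
    ∀ᶠ x in U, ∀ B ⊆ A, #B < #I → Unb {y | ∀ X ∈ B, (y ∈ X ↔ X ∈ G (φ x))} := by
  have h1 : ∀ n : ULift.{u} ℕ, ∃ B ⊆ A, #B < #I ∧ ∃ b : I,
      (∃ y, (∀ X ∈ B, (y ∈ X ↔ X ∈ G n.down)) ∧ b < y) →
      ∀ B ⊆ A, #B < #I → Unb {y | ∀ X ∈ B, (y ∈ X ↔ X ∈ G n.down)} := by
    intro n
    by_cases k : ∀ B ⊆ A, #B < #I → Unb {y | ∀ X ∈ B, (y ∈ X ↔ X ∈ G n.down)}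
    · obtain ⟨b, -⟩ := hI.bdd_set (s := ∅) (by simpa using hI.reg.pos)
      exact ⟨∅, empty_subset _, by simpa using hI.reg.pos, b, fun _ => k⟩
    · simp only [not_forall, Unb] at k
      obtain ⟨B, k1, k2, b, k3⟩ := k
      exact ⟨B, k1, k2, b, fun l => (k3 l).elim⟩
  choose B hB1 hB2 b hb using h1
  have hc : #(ULift.{u} ℕ) < #I := by simpa using hI.unc
  obtain ⟨c, hc'⟩ := hI.bdd hc b
  have h2 : #(⋃ n, B n) < #I := (card_iUnion_lt_iff_forall_of_isRegular hI.reg hc).2 hB2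
  filter_upwards [h _ (iUnion_subset hB1) h2, hI.tail hu c] with x k1 k2
  exact hb ⟨φ x⟩ ⟨x, fun X hX => k1 X (mem_iUnion.2 ⟨_, hX⟩), (hc' _).trans k2⟩

end Pool.Agent.MP_76b292_lc.GM
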