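import Pool.Agent.MP_76b292_lc.gm.Game

/-!
Two checks on the game: length `ω` gives a Ramsey cardinal, length `2 ^ κ` a measurable one.
These lemmas are not used by the hand-in.
-/

set_option autoImplicit false

universe u

open Cardinal Set

namespace Pool.Agent.MP_76b292_lc.GM

/-- iterated limits of a colouring along a family of large sets -/
def lim {I : Type u} [DecidableEq I] (c : Finset I → Prop) (W : Set (Set I)) :
    ℕ → Finset I → Prop
  | 0 => c
  | k + 1 => fun s => {x | lim c W k (insert x s)} ∈ W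

/-- a homogeneous set from a complete family deciding all iterated limits -/
lemma homog {I : Type u} [LinearOrder I] [WellFoundedLT I] (h : Inac I) (c : Finset I → Prop)
    (W : Set (Set I))
    (hW : ∀ T : Set (ℕ × Finset I), #T < #I →
      Unb {x | ∀ p ∈ T, (lim c W p.1 (insert x p.2) ↔ lim c W (p.1 + 1) p.2)}) :
    ∃ H : Set I, #H = #I ∧ ∀ s t : Finset I, ↑s ⊆ H → ↑t ⊆ H → s.card = t.card → (c s ↔ c t) := by
  have h1 : ∀ b : I, ∃ x, b < x ∧ ∀ k, ∀ s : Finset I, (∀ a ∈ s, a ≤ b) →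
      (lim c W k (insert x s) ↔ lim c W (k + 1) s) := by
    intro b
    have hc : #{p : ℕ × Finset I | ∀ a ∈ p.2, a ≤ b} < #I := by
      have h2 : #{p : ℕ × Finset I | ∀ a ∈ p.2, a ≤ b} ≤ #(ℕ × Set (Iic b)) := by
        refine mk_le_of_injective (f := fun p => (p.1.1, {a | a.1 ∈ p.1.2})) fun p q e => ?_
        obtain ⟨e1, e2⟩ := Prod.ext_iff.1 e
        refine Subtype.ext (Prod.ext e1 (Finset.ext fun a => ⟨fun k => ?_, fun k => ?_⟩))
        · exact (Set.ext_iff.1 e2 ⟨a, p.2 a k⟩).1 k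
        · exact (Set.ext_iff.1 e2 ⟨a, q.2 a k⟩).2 k
      refine h2.trans_lt ?_
      simpa using mul_lt_of_lt h.unc.le h.unc (h.sl.isStrongPrelimit (h.iic b))
    obtain ⟨x, hx, hbx⟩ := hW _ hc b
    exact ⟨x, hbx, fun k s hs => hx (k, s) hs⟩
  choose g hg1 hg2 using h1
  have h3 : ∀ (i : I) (r : Iio i → I), ∃ b, i < b ∧ ∀ j, r j < b := by
    intro i r
    obtain ⟨b, hb⟩ := h.bdd (h.iio i) r
    obtain ⟨d, -, hd⟩ := h.unb_univ (max i b)
    exact ⟨d, (le_max_left _ _).trans_lt hd, fun j => (hb j).trans ((le_max_right _ _).trans_lt hd)⟩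
  choose b hb1 hb2 using h3
  let f : I → I := WellFounded.fix wellFounded_lt
    (fun i (r : ∀ j, j < i → I) => g (b i (fun j => r j.1 j.2)))
  have hf : ∀ i, f i = g (b i (fun j => f j.1)) := fun i => WellFounded.fix_eq _ _ _
  have hmono : StrictMono f := fun j i k => by
    rw [hf i]
    exact (hb2 i (fun j => f j.1) ⟨j, k⟩).trans (hg1 _)
  have key : ∀ n k, ∀ s : Finset I, ↑s ⊆ range f → s.card = n →
      (lim c W k s ↔ lim c W (k + n) ∅) := by
    intro n
    induction n with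
    | zero =>
      intro k s _ e
      rw [Finset.card_eq_zero.1 e]
      rfl
    | succ n ih =>
      intro k s hs e
      have hne : s.Nonempty := Finset.card_pos.1 (by omega)
      obtain ⟨i, hi⟩ := hs (s.max'_mem hne)
      have hm : f i ∈ s := hi ▸ s.max'_mem hne
      have e1 : insert (f i) (s.erase (f i)) = s := Finset.insert_erase hm
      have e2 : (s.erase (f i)).card = n := by
        rw [Finset.card_erase_of_mem hm, e]
        rfl
      have e3 := ih (k + 1) (s.erase (f i))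
        (fun a ha => hs (Finset.mem_of_mem_erase ha)) e2
      have e4 := hg2 (b i (fun j => f j.1)) k (s.erase (f i)) (fun a ha => by
        obtain ⟨j, rfl⟩ := hs (Finset.mem_of_mem_erase ha)
        have l1 : f j ≤ f i := hi ▸ s.le_max' _ (Finset.mem_of_mem_erase ha)
        have l2 : j < i := hmono.lt_iff_lt.1 (lt_of_le_of_ne l1 (Finset.ne_of_mem_erase ha))
        exact (hb2 i (fun j => f j.1) ⟨j, l2⟩).le)
      rw [← hf i, e1] at e4
      rw [e4, e3, show k + 1 + n = k + (n + 1) by omega]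
  refine ⟨range f, mk_range_eq _ hmono.injective, fun s t hs ht e => ?_⟩
  exact (key _ 0 s hs e).trans (key _ 0 t ht rfl).symm

theorem ramsey_of_noWin {κ : Cardinal.{u}} (h1 : ℵ₀ < κ) (h2 : κ.IsRegular)
    (h3 : κ.IsStrongLimit) (h : NoWinI κ Ordinal.omega0) (c : Finset κ.ord.ToType → Prop) :
    ∃ H : Set κ.ord.ToType, #H = κ ∧
      ∀ s t : Finset κ.ord.ToType, ↑s ⊆ H → ↑t ⊆ H → s.card = t.card → (c s ↔ c t) := by
  have hI := inac_toType h1 h2 h3
  have hinf : Infinite κ.ord.ToType := Cardinal.aleph0_le_mk_iff.1 hI.unc.le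
  obtain ⟨A, U, hA, hB⟩ := h (fun i r => range fun p : ℕ × Finset κ.ord.ToType =>
    {x | lim c (⋃ j, r j) p.1 (insert x p.2)}) (fun i r => by
      refine mk_range_le.trans ?_
      simp [h1.le])
  have hco : ∀ i j X, X ∈ A i → X ∈ U j → X ∈ U i := by
    intro i j X k1 k2
    by_contra k3
    have := hB {X, Xᶜ} (by
      rintro _ (rfl | rfl)
      · exact mem_iUnion.2 ⟨j, Or.inl k2⟩
      · exact mem_iUnion.2 ⟨i, Or.inr ⟨X, ⟨k1, k3⟩, rfl⟩⟩)
      ((Set.toFinite _).lt_aleph0.trans h1)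
    rw [sInter_pair, inter_compl_self, mk_eq_zero] at this
    exact h2.pos.ne this
  have hnm : NoMaxOrder (Ordinal.omega0.{u}).ToType :=
    Ordinal.toType_noMax_of_succ_lt fun a ha => Ordinal.isSuccLimit_omega0.succ_lt ha
  have hne : Nonempty (Ordinal.omega0.{u}).ToType :=
    Ordinal.nonempty_toType_iff.2 Ordinal.omega0_ne_zero
  have key : ∀ k, ∃ i₀, ∀ i, i₀ ≤ i →
      lim c (⋃ j : Iio i, U j.1) k = lim c (⋃ j, U j) k := by
    intro k
    induction k with
    | zero => exact ⟨Classical.arbitrary _, fun _ _ => rfl⟩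
    | succ k ih =>
      obtain ⟨i₀, h₀⟩ := ih
      obtain ⟨i₁, hi₁⟩ := exists_gt i₀
      refine ⟨i₁, fun i hi => funext fun s => propext ?_⟩
      change {x | lim c (⋃ j : Iio i, U j.1) k (insert x s)} ∈ (⋃ j : Iio i, U j.1) ↔
        {x | lim c (⋃ j, U j) k (insert x s)} ∈ ⋃ j, U j
      rw [h₀ i (hi₁.le.trans hi)]
      refine ⟨fun l => ?_, fun l => ?_⟩
      · obtain ⟨j, l⟩ := mem_iUnion.1 l
        exact mem_iUnion.2 ⟨j.1, l⟩
      · obtain ⟨j, l⟩ := mem_iUnion.1 l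
        refine mem_iUnion.2 ⟨⟨i₀, hi₁.trans_le hi⟩, hco _ j _ ?_ l⟩
        rw [(hA i₀).1]
        exact ⟨(k, s), by simp only [h₀ i₀ le_rfl]⟩
  have := homog hI c (⋃ j, U j) (fun T hT => by
    let Y : ℕ × Finset κ.ord.ToType → Set κ.ord.ToType := fun p =>
      {x | lim c (⋃ j, U j) p.1 (insert x p.2) ↔ lim c (⋃ j, U j) (p.1 + 1) p.2}
    have k1 : Y '' T ⊆ ⋃ i, U i ∪ compl '' (A i \ U i) := by
      rintro _ ⟨p, -, rfl⟩
      obtain ⟨i₀, h₀⟩ := key p.1
      have l1 : {x | lim c (⋃ j, U j) p.1 (insert x p.2)} ∈ A i₀ := by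
        rw [(hA i₀).1]
        exact ⟨p, by simp only [h₀ i₀ le_rfl]⟩
      by_cases l2 : lim c (⋃ j, U j) (p.1 + 1) p.2
      · obtain ⟨j, l3⟩ := mem_iUnion.1 l2
        refine mem_iUnion.2 ⟨j, Or.inl ?_⟩
        simpa only [Y, l2, iff_true] using l3
      · refine mem_iUnion.2 ⟨i₀, Or.inr ⟨_, ⟨l1, fun l3 => l2 (mem_iUnion.2 ⟨i₀, l3⟩)⟩, ?_⟩⟩
        simp only [Y, l2, iff_false]
        rfl
    have k2 := hB _ k1 (mk_image_le.trans_lt (by simpa using hT))
    intro b
    by_contra k3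
    have k4 : ⋂₀ (Y '' T) ⊆ Iic b := fun x hx => not_lt.1 fun l =>
      k3 ⟨x, fun p hp => hx _ ⟨p, hp, rfl⟩, l⟩
    have k5 := (mk_le_mk_of_subset k4).trans_lt (hI.iic b)
    rw [k2, mk_ord_toType] at k5
    exact lt_irrefl _ k5)
  simpa only [mk_ord_toType] using this

theorem measurable_of_noWin {κ : Cardinal.{u}} (h1 : ℵ₀ < κ) (h : NoWinI κ ((2 : Cardinal.{u}) ^ κ).ord) :
    IsMeasurable κ := by
  obtain ⟨e⟩ : Nonempty (((2 : Cardinal.{u}) ^ κ).ord.ToType ≃ Set κ.ord.ToType) := Cardinal.eq.1 (by simp)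
  obtain ⟨A, U, hA, hB⟩ := h (fun i _ => {e i}) (fun i r => by
    simpa using (one_lt_aleph0.trans h1).le)
  let L : Set (Set κ.ord.ToType) := ⋃ i, U i ∪ compl '' (A i \ U i)
  have hL : ∀ X, X ∉ L → Xᶜ ∈ L := fun X k => by
    refine mem_iUnion.2 ⟨e.symm X, Or.inr ⟨X, ⟨?_, fun l => k (mem_iUnion.2 ⟨_, Or.inl l⟩)⟩, rfl⟩⟩
    rw [(hA _).1]
    exact (e.apply_symm_apply X).symm
  have hpos : (0 : Cardinal.{u}) < κ := aleph0_pos.trans h1
  have hc : ∀ B ⊆ L, #B < κ → ∀ X, ⋂₀ B ⊆ X → X ∈ L := by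
    intro B k1 k2 X k3
    by_contra k4
    have := hB (insert Xᶜ B) (insert_subset (hL X k4) k1)
      (mk_insert_le.trans_lt (add_lt_of_lt h1.le k2 (one_lt_aleph0.trans h1)))
    rw [sInter_insert, (disjoint_compl_left.mono_right k3).inter_eq, mk_eq_zero] at this
    exact hpos.ne this
  have hfin : ∀ {B : Set (Set κ.ord.ToType)}, B.Finite → #B < κ := fun k =>
    k.lt_aleph0.trans h1
  have hone : ∀ X ∈ L, #X = κ := fun X k => by
    simpa using hB {X} (singleton_subset_iff.2 k) (hfin (Set.toFinite _))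
  refine ⟨h1, _, mkUltra L (fun X Y => ⟨fun k => ⟨?_, ?_⟩, fun k => ?_⟩)
    (fun X => ⟨fun k l => ?_, hL X⟩), mk_ord_toType κ, fun x k => ?_,
    ⟨fun S k1 k2 => hc S k2 k1 _ Subset.rfl⟩⟩
  · exact hc {X ∩ Y} (singleton_subset_iff.2 k) (hfin (Set.toFinite _)) _ (by simp)
  · exact hc {X ∩ Y} (singleton_subset_iff.2 k) (hfin (Set.toFinite _)) _ (by simp)
  · exact hc {X, Y} (insert_subset k.1 (singleton_subset_iff.2 k.2)) (hfin (Set.toFinite _)) _
      (by simp)
  · have := hone _ (hc {X, Xᶜ} (insert_subset l (singleton_subset_iff.2 k))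
      (hfin (Set.toFinite _)) ∅ (by simp))
    rw [mk_eq_zero] at this
    exact hpos.ne this
  · have := hone _ k
    rw [mk_singleton] at this
    exact (one_lt_aleph0.trans h1).ne this

end Pool.Agent.MP_76b292_lc.GM
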