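import Pool.Agent.MP_76b292_lc.gm.Defs
import Mathlib.SetTheory.Cardinal.Continuum
import Mathlib.Data.Set.Finite.Lattice
import Mathlib.Data.Set.Finite.Range

/-!
Bounded sets in a well-order of regular type, and the subadditive colouring lemma from PID.
-/

set_option autoImplicit false

universe u

open Cardinal Set

namespace Pool.Agent.MP_76b292_lc.GM

variable {I : Type u} [LinearOrder I]

/-- the order type is an inaccessible cardinal -/
structure Inac (I : Type u) [LinearOrder I] : Prop where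
  unc : ℵ₀ < #I
  reg : (#I).IsRegular
  sl : (#I).IsStrongLimit
  iio : ∀ i : I, #(Iio i) < #I

/-- unbounded sets -/
def Unb (s : Set I) : Prop := ∀ b, ∃ x ∈ s, b < x

namespace Inac

lemma iic (h : Inac I) (i : I) : #(Iic i) < #I := by
  rw [← Iio_insert]
  exact mk_insert_le.trans_lt (add_lt_of_lt h.unc.le (h.iio i) (one_lt_aleph0.trans h.unc))

lemma bdd (h : Inac I) {T : Type u} (hT : #T < #I) (f : T → I) : ∃ b, ∀ t, f t < b := by
  by_contra hc
  push Not at hc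
  have h1 : (⋃ t, Iic (f t)) = Set.univ := by
    refine eq_univ_of_forall fun b => ?_
    obtain ⟨t, ht⟩ := hc b
    exact mem_iUnion.2 ⟨t, ht⟩
  have h2 : #(⋃ t, Iic (f t)) < #I :=
    (card_iUnion_lt_iff_forall_of_isRegular h.reg hT).2 fun t => h.iic _
  rw [h1, mk_univ] at h2
  exact lt_irrefl _ h2

lemma bdd_set (h : Inac I) {s : Set I} (hs : #s < #I) : ∃ b, ∀ x ∈ s, x < b := by
  obtain ⟨b, hb⟩ := h.bdd hs (fun x => x.1)
  exact ⟨b, fun x hx => hb ⟨x, hx⟩⟩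

lemma bdd_nat (h : Inac I) (f : ℕ → I) : ∃ b, ∀ n, f n < b := by
  obtain ⟨b, hb⟩ := h.bdd_set (s := range f)
    ((le_aleph0_iff_set_countable.2 (countable_range f)).trans_lt h.unc)
  exact ⟨b, fun n => hb _ ⟨n, rfl⟩⟩

lemma card_unb (h : Inac I) {s : Set I} (hs : Unb s) : #s = #I := by
  refine le_antisymm (mk_set_le s) (not_lt.1 fun hlt => ?_)
  obtain ⟨b, hb⟩ := h.bdd_set hlt
  obtain ⟨x, hx, hbx⟩ := hs b
  exact lt_asymm hbx (hb x hx)

/-- pigeonhole for unbounded sets -/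
lemma pigeon (h : Inac I) {T : Type u} (hT : #T < #I) {s : Set I} (hs : Unb s) (f : I → T) :
    ∃ t, Unb {x | x ∈ s ∧ f x = t} := by
  by_contra hc
  have h1 : ∀ t, ∃ b, ∀ x ∈ s, f x = t → x ≤ b := by
    intro t
    by_contra h2
    push Not at h2
    refine hc ⟨t, fun b => ?_⟩
    obtain ⟨x, h3, h4, h5⟩ := h2 b
    exact ⟨x, ⟨h3, h4⟩, h5⟩
  choose b hb using h1
  obtain ⟨c, hc⟩ := h.bdd hT b
  obtain ⟨x, hx, hcx⟩ := hs c
  exact lt_asymm hcx ((hb _ x hx rfl).trans_lt (hc _))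

lemma pigeon_nat (h : Inac I) {s : Set I} (hs : Unb s) (f : I → ℕ) :
    ∃ t, Unb {x | x ∈ s ∧ f x = t} := by
  obtain ⟨t, ht⟩ := h.pigeon (T := ULift.{u} ℕ) (by simpa using h.unc) hs (fun x => ⟨f x⟩)
  refine ⟨t.down, fun b => ?_⟩
  obtain ⟨x, ⟨h1, h2⟩, h3⟩ := ht b
  exact ⟨x, ⟨h1, by rw [← h2]⟩, h3⟩

lemma cont_lt (h : Inac I) : Cardinal.continuum < #I := h.sl.isStrongPrelimit h.unc

end Inac

/-- Under PID a subadditive colouring is bounded on an unbounded set. -/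
lemma subadd (hP : PID.{u}) (h : Inac I) {X : Set I} (hX : Unb X) (R : ℕ → I → I → Prop)
    (mono : ∀ {m m' a b}, m ≤ m' → R m a b → R m' a b)
    (tot : ∀ a ∈ X, ∀ b ∈ X, a < b → ∃ m, R m a b)
    (tr1 : ∀ {m a b c}, a < b → b < c → R m a b → R m b c → R m a c)
    (tr2 : ∀ {m a b c}, a < b → b < c → R m a c → R m b c → R m a b) :
    ∃ m, ∃ S ⊆ X, Unb S ∧ ∀ a ∈ S, ∀ b ∈ S, a < b → R m a b := by
  classical
  let J : Set (Set X) := {A | A.Countable ∧ ∀ b : X, ∀ m, {a ∈ A | a.1 < b.1 ∧ R m a b}.Finite}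
  have up : ∀ A : Set X, #A < #I → ∃ β : X, ∀ a ∈ A, a.1 < β.1 := by
    intro A hA
    obtain ⟨b, hb⟩ := h.bdd hA (fun a => a.1.1)
    obtain ⟨x, hx, hbx⟩ := hX b
    exact ⟨⟨x, hx⟩, fun a ha => (hb ⟨a, ha⟩).trans hbx⟩
  have up' : ∀ A : Set X, A.Countable → ∃ β : X, ∀ a ∈ A, a.1 < β.1 := fun A hA =>
    up A ((le_aleph0_iff_set_countable.2 hA).trans_lt h.unc)
  have trans : ∀ A : Set X, A.Countable → ∀ β : X, (∀ a ∈ A, a.1 < β.1) →
      (∀ m, {a ∈ A | R m a β}.Finite) → A ∈ J := by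
    intro A hA β hβ hf
    refine ⟨hA, fun b m => ?_⟩
    rcases lt_trichotomy b.1 β.1 with k | k | k
    · obtain ⟨m', hm'⟩ := tot _ b.2 _ β.2 k
      refine (hf (max m m')).subset fun a ha => ⟨ha.1, ?_⟩
      exact tr1 ha.2.1 k (mono (le_max_left _ _) ha.2.2) (mono (le_max_right _ _) hm')
    · refine (hf m).subset fun a ha => ⟨ha.1, ?_⟩
      rw [← k]
      exact ha.2.2
    · obtain ⟨m', hm'⟩ := tot _ β.2 _ b.2 k
      refine (hf (max m m')).subset fun a ha => ⟨ha.1, ?_⟩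
      exact tr2 (hβ a ha.1) k (mono (le_max_left _ _) ha.2.2) (mono (le_max_right _ _) hm')
  have hJ : PIdeal J := by
    refine ⟨fun A hA => hA.1, fun A hA => ⟨hA.countable, fun b m => hA.subset fun a ha => ha.1⟩,
      fun A hA B hB => ⟨hA.1.mono hB, fun b m => (hA.2 b m).subset fun a ha => ⟨hB ha.1, ha.2⟩⟩,
      fun A hA B hB => ⟨hA.1.union hB.1, fun b m => ((hA.2 b m).union (hB.2 b m)).subset ?_⟩, ?_⟩
    · rintro a ⟨ha | ha, k⟩
      · exact Or.inl ⟨ha, k⟩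
      · exact Or.inr ⟨ha, k⟩
    · intro A hA
      obtain ⟨β, hβ⟩ := up' (⋃ n, A n) (countable_iUnion fun n => (hA n).1)
      have hβ' : ∀ n, ∀ a ∈ A n, a.1 < β.1 := fun n a ha => hβ a (mem_iUnion.2 ⟨n, ha⟩)
      refine ⟨⋃ n, {a ∈ A n | ¬ R n a β}, trans _ (countable_iUnion fun n =>
        (hA n).1.mono fun a ha => ha.1) β ?_ fun m => ?_, fun n => ?_⟩
      · intro a ha
        obtain ⟨n, hn⟩ := mem_iUnion.1 ha
        exact hβ' n a hn.1
      · refine ((finite_lt_nat m).biUnion (t := fun n => {a ∈ A n | a.1 < β.1 ∧ R m a β})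
          fun n _ => (hA n).2 β m).subset ?_
        rintro a ⟨ha, k⟩
        obtain ⟨n, hn⟩ := mem_iUnion.1 ha
        refine mem_biUnion (x := n) ?_ ⟨hn.1, hβ' n a hn.1, k⟩
        exact not_le.1 fun l => hn.2 (mono l k)
      · refine ((hA n).2 β n).subset ?_
        rintro a ⟨ha, k⟩
        refine ⟨ha, hβ' n a ha, ?_⟩
        by_contra l
        exact k (mem_iUnion.2 ⟨n, ha, l⟩)
  rcases hP X J hJ with ⟨A, hA1, hA2⟩ | ⟨T, hT1, hT2⟩
  · exfalso
    rw [← le_aleph0_iff_set_countable, not_le, ← Order.succ_le_iff, succ_aleph0] at hA1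
    obtain ⟨A', hA', hc⟩ := le_mk_iff_exists_subset.1 hA1
    obtain ⟨β, hβ⟩ := up A' (by rw [hc]; exact aleph_one_le_continuum.trans_lt h.cont_lt)
    have h1 : ¬ A'.Countable := by
      rw [← le_aleph0_iff_set_countable, not_le, hc]
      exact aleph0_lt_aleph_one
    apply h1
    have h2 : A' ⊆ ⋃ m, {a ∈ A' | R m a β} := fun a ha => by
      obtain ⟨m, hm⟩ := tot _ a.2 _ β.2 (hβ a ha)
      exact mem_iUnion.2 ⟨m, ha, hm⟩
    refine (countable_iUnion fun m => Finite.countable ?_).mono h2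
    by_contra h3
    obtain ⟨C, hC1, hC3, hC2⟩ := Set.Infinite.exists_subset_countable_infinite h3
    refine hC2 (((hA2 C (fun a ha => hA' (hC1 ha).1) hC3).2 β m).subset fun a ha => ?_)
    exact ⟨ha, hβ a (hC1 ha).1, (hC1 ha).2⟩
  · have h1 : ∀ a : X, ∃ n, a ∈ T n := fun a => mem_iUnion.1 (hT1 ▸ mem_univ a)
    choose N hN using h1
    obtain ⟨n, hn⟩ := h.pigeon_nat hX (fun x => if k : x ∈ X then N ⟨x, k⟩ else 0)
    have h2 : ∀ β : X, ∃ m, ∀ a ∈ T n, a.1 < β.1 → R m a β := by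
      intro β
      by_contra hc
      push Not at hc
      choose a ha1 ha2 ha3 using hc
      have hf : ∀ m, {x ∈ range a | R m x β}.Finite := by
        intro m
        refine ((finite_lt_nat m).image a).subset ?_
        rintro _ ⟨⟨k, rfl⟩, l⟩
        exact ⟨k, not_le.1 fun l' => ha3 k (mono l' l), rfl⟩
      have h3 : range a ∈ J := trans _ (countable_range a) β (by
        rintro _ ⟨k, rfl⟩
        exact ha2 k) hf
      have h4 : (range a).Finite := (hT2 n _ h3).subset (by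
        rintro _ ⟨k, rfl⟩
        exact ⟨ha1 k, k, rfl⟩)
      have h5 : ∀ x : range a, ∃ m, R m x.1 β := by
        rintro ⟨_, k, rfl⟩
        exact tot _ (a k).2 _ β.2 (ha2 k)
      choose M hM using h5
      have := h4.to_subtype
      obtain ⟨m, hm⟩ := (finite_range M).bddAbove
      exact ha3 m (mono (hm ⟨⟨a m, m, rfl⟩, rfl⟩) (hM ⟨a m, m, rfl⟩))
    choose M hM using h2
    obtain ⟨m, hm⟩ := h.pigeon_nat hX (fun x => if k : x ∈ X then M ⟨x, k⟩ else 0)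
    refine ⟨m, _, fun x hx => hx.1, hn, fun a ha b hb hab => ?_⟩
    obtain ⟨β, ⟨hβ1, hβ2⟩, hβ3⟩ := hm b
    have e1 : M ⟨β, hβ1⟩ = m := by simpa [hβ1] using hβ2
    have e2 : (⟨a, ha.1⟩ : X) ∈ T n := by
      have : N ⟨a, ha.1⟩ = n := by simpa [ha.1] using ha.2
      have k := hN ⟨a, ha.1⟩
      rwa [this] at k
    have e3 : (⟨b, hb.1⟩ : X) ∈ T n := by
      have : N ⟨b, hb.1⟩ = n := by simpa [hb.1] using hb.2
      have k := hN ⟨b, hb.1⟩
      rwa [this] at k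
    exact tr2 hab hβ3 (e1 ▸ hM ⟨β, hβ1⟩ _ e2 (hab.trans hβ3)) (e1 ▸ hM ⟨β, hβ1⟩ _ e3 hβ3)

end Pool.Agent.MP_76b292_lc.GM
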